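import Pool.Agent.H57.AR.Targets

/-!
# MP_6ab439_lc, all arities, row SAM: the type of a tuple without relations between more than two
elements is given by the colours
-/

set_option autoImplicit false

namespace Pool.Agent.H96.AR

open Pool.Agent.H68.BP Pool.Agent.H58.SF Pool.Agent.H53.GC Pool.Agent.H53.NR Pool.Agent.H53.GR
open Pool.Agent.H57.SO (Pal Col vt)
open Pool.Agent.H57.AR
open Function

theorem sam_half {ρ : Sig} {V S X : Type} {P : Pal S X} {𝔹 : Str ρ V} {c : V → V → S ⊕ X}
    (hL : Lnk P 𝔹 c) {W : Type} {x y : W → V} (hx : Two 𝔹 x)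
    (h : ∀ a b, c (x a) (x b) = c (y a) (y b)) (l : Fin ρ.m) (z : Fin (ρ.ar l) → W)
    (hz : 𝔹 l (fun i => x (z i))) : 𝔹 l (fun i => y (z i)) := by
  classical
  obtain ⟨a, b, hab⟩ := hx l z hz
  have h1 := ((hL.eq _ _ _ _).1 (h a b)).2 l fun i => decide (x (z i) = x b)
  have h2 : (fun i => if (decide (x (z i) = x b)) = true then x b else x a) =
      fun i => x (z i) := by
    funext i
    by_cases hi : x (z i) = x b
    · rw [if_pos (decide_eq_true hi), hi]
    · rw [if_neg (fun h => hi (of_decide_eq_true h))]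
      exact ((hab i).resolve_right hi).symm
  have h3 : (fun i => if (decide (x (z i) = x b)) = true then y b else y a) =
      fun i => y (z i) := by
    funext i
    by_cases hi : x (z i) = x b
    · rw [if_pos (decide_eq_true hi)]
      exact (((hL.eq _ _ _ _).1 (h (z i) b)).1.1 hi).symm
    · rw [if_neg (fun h => hi (of_decide_eq_true h))]
      exact (((hL.eq _ _ _ _).1 (h (z i) a)).1.1 ((hab i).resolve_right hi)).symm
  rw [h2, h3] at h1
  exact h1.1 hz

theorem pf_SAM : T_SAM := by
  intro ρ V S X P 𝔹 c hL W x y hx hy h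
  refine Prod.ext ?_ ?_
  · funext a b
    exact propext ((hL.eq _ _ _ _).1 (h a b)).1
  · funext l z
    exact propext ⟨sam_half hL hx h l z, sam_half hL hy (fun a b => (h a b).symm) l z⟩

end Pool.Agent.H96.AR
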